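import Pool.Agent.Helper98.GX.St4

/-!
# Project GX, module ALI: dual derivations give algebraic independence
-/

set_option autoImplicit false

open scoped BigOperators

namespace Pool.Agent.Helper21.GX

open Pool.Agent.Helper98.GX
open Pool.Agent.Helper53.CX (DivVal LinSys IsNefCartier)

section der

variable {K : Type} [Field K] [Algebra ℂ K] {n : ℕ} (y : Fin n → K)
  (θ : Fin n → Derivation ℂ K K)

private theorem der_pow (d : Derivation ℂ K K) (x : K) (c : K) (h : d x = c * x) (m : ℕ) :
    d (x ^ m) = (m : K) * c * x ^ m := by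
  induction m with
  | zero => simp
  | succ m ih =>
    rw [pow_succ, Derivation.leibniz, ih, h]
    simp only [smul_eq_mul]
    push_cast
    ring

private theorem der_prod (d : Derivation ℂ K K) (c : Fin n → K) (h : ∀ i, d (y i) = c i * y i)
    (μ : Fin n → ℕ) (s : Finset (Fin n)) :
    d (∏ i ∈ s, y i ^ μ i) = (∑ i ∈ s, (μ i : K) * c i) * ∏ i ∈ s, y i ^ μ i := by
  classical
  induction s using Finset.induction_on with
  | empty => simp
  | insert a s ha ih =>
    rw [Finset.prod_insert ha, Finset.sum_insert ha, Derivation.leibniz, ih,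
      der_pow d _ _ (h a)]
    simp only [smul_eq_mul]
    ring

private theorem theta_mon (hθ : ∀ i j, θ j (y i) = if i = j then y i else 0) (μ : Fin n → ℕ)
    (j : Fin n) : θ j (∏ i, y i ^ μ i) = (μ j : K) * ∏ i, y i ^ μ i := by
  rw [der_prod y (θ j) (fun i => if i = j then 1 else 0) (fun i => by
    rw [hθ]; split_ifs <;> simp) μ Finset.univ]
  congr 1
  simp

/-- The monomials are linearly independent. -/
private theorem mon_indep (hy : ∀ i, y i ≠ 0)
    (hθ : ∀ i j, θ j (y i) = if i = j then y i else 0) (s : Finset (Fin n →₀ ℕ)) :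
    ∀ c : (Fin n →₀ ℕ) → ℂ, ∑ μ ∈ s, algebraMap ℂ K (c μ) * ∏ i, y i ^ μ i = 0 →
      ∀ μ ∈ s, c μ = 0 := by
  classical
  induction s using Finset.induction_on with
  | empty => intro c _ μ hμ; exact absurd hμ (Finset.notMem_empty μ)
  | insert ν s hν ih =>
    intro c hc
    have hne : ∀ μ : Fin n →₀ ℕ, ∏ i, y i ^ μ i ≠ 0 := fun μ =>
      Finset.prod_ne_zero_iff.mpr fun i _ => pow_ne_zero _ (hy i)
    have hs : ∀ μ ∈ s, c μ = 0 := by
      intro μ hμ
      have hμν : μ ≠ ν := fun h => hν (h ▸ hμ)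
      obtain ⟨j, hj⟩ : ∃ j, μ j ≠ ν j := by
        by_contra hcon
        push Not at hcon
        exact hμν (Finsupp.ext hcon)
      have h1 : ∑ ξ ∈ s, algebraMap ℂ K (((ξ j : ℂ) - (ν j : ℂ)) * c ξ) * ∏ i, y i ^ ξ i = 0 := by
        have h2 := congrArg (θ j) hc
        rw [map_sum, map_zero] at h2
        have h3 : ∀ ξ : Fin n →₀ ℕ, θ j (algebraMap ℂ K (c ξ) * ∏ i, y i ^ ξ i) =
            algebraMap ℂ K (c ξ) * ((ξ j : K) * ∏ i, y i ^ ξ i) := by
          intro ξ
          rw [Derivation.leibniz, Derivation.map_algebraMap, theta_mon y θ hθ]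
          simp
        rw [Finset.sum_congr rfl fun ξ _ => h3 ξ, Finset.sum_insert hν] at h2
        rw [Finset.sum_insert hν] at hc
        have h4 : ∑ ξ ∈ s, algebraMap ℂ K (((ξ j : ℂ) - (ν j : ℂ)) * c ξ) * ∏ i, y i ^ ξ i =
            ∑ ξ ∈ s, algebraMap ℂ K (c ξ) * ((ξ j : K) * ∏ i, y i ^ ξ i) -
              (ν j : K) * ∑ ξ ∈ s, algebraMap ℂ K (c ξ) * ∏ i, y i ^ ξ i := by
          rw [Finset.mul_sum, ← Finset.sum_sub_distrib]
          refine Finset.sum_congr rfl fun ξ _ => ?_
          rw [map_mul, map_sub, map_natCast, map_natCast]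
          ring
        rw [h4]
        linear_combination h2 - (ν j : K) * hc
      have h5 := ih (fun ξ => ((ξ j : ℂ) - (ν j : ℂ)) * c ξ) h1 μ hμ
      have h6 : ((μ j : ℂ) - (ν j : ℂ)) ≠ 0 := by
        rw [sub_ne_zero]
        exact_mod_cast hj
      exact (mul_eq_zero.mp h5).resolve_left h6
    intro μ hμ
    rcases Finset.mem_insert.mp hμ with rfl | hμ
    · rw [Finset.sum_insert hν, Finset.sum_eq_zero fun ξ hξ => by rw [hs ξ hξ, map_zero, zero_mul],
        add_zero] at hc
      have h7 := (mul_eq_zero.mp hc).resolve_right (hne μ)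
      exact (map_eq_zero (algebraMap ℂ K)).mp h7
    · exact hs μ hμ

private theorem alg_indep (hy : ∀ i, y i ≠ 0)
    (hθ : ∀ i j, θ j (y i) = if i = j then y i else 0) : AlgebraicIndependent ℂ y := by
  rw [algebraicIndependent_iff]
  intro p hp
  rw [MvPolynomial.aeval_def, MvPolynomial.eval₂_eq'] at hp
  have h1 := mon_indep y θ hy hθ p.support (fun μ => MvPolynomial.coeff μ p) hp
  ext μ
  rw [MvPolynomial.coeff_zero]
  by_cases hμ : μ ∈ p.support
  · exact h1 μ hμ
  · exact MvPolynomial.notMem_support_iff.mp hμ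

end der

theorem hALI : StALI := by
  intro K _ _ n L y θ hy hθ
  have h1 := alg_indep y θ hy hθ
  refine h1.isTranscendenceBasis_of_trdeg_le_of_finite ?_
  rw [← L.basis.cardinalMk_eq_trdeg]

end Pool.Agent.Helper21.GX
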