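import Pool.Agent.Helper98.GX.St3

/-!
# Project GX, module OUR: the coordinate ring of the chart and equations of the prime divisors
-/

set_option autoImplicit false

open scoped BigOperators

namespace Pool.Agent.Helper21.GX

open Pool.Agent.Helper98.GX
open Pool.Agent.Helper53.CX (DivVal LinSys IsNefCartier)

section ord

variable {K : Type} [Field K] [Algebra ℂ K] (v : DivVal K)

private theorem ord_one : v.ord 1 = 0 := by
  have h := v.ord_mul 1 1 one_ne_zero one_ne_zero
  rw [one_mul] at h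
  omega

private theorem ord_pow {x : K} (hx : x ≠ 0) (m : ℕ) : v.ord (x ^ m) = m * v.ord x := by
  induction m with
  | zero => simp [ord_one]
  | succ m ih =>
    rw [pow_succ, v.ord_mul _ _ (pow_ne_zero m hx) hx, ih]
    push_cast
    ring

private theorem ord_inv {x : K} (hx : x ≠ 0) : v.ord x⁻¹ = -v.ord x := by
  have h := v.ord_mul x x⁻¹ hx (inv_ne_zero hx)
  rw [mul_inv_cancel₀ hx, ord_one] at h
  omega

private theorem ord_zpow {x : K} (hx : x ≠ 0) (m : ℤ) : v.ord (x ^ m) = m * v.ord x := by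
  obtain ⟨k, rfl | rfl⟩ := m.eq_nat_or_neg
  · rw [zpow_natCast, ord_pow v hx]
  · rw [zpow_neg, zpow_natCast, ord_inv v (pow_ne_zero k hx), ord_pow v hx]
    ring

private theorem ord_prod {ι : Type} (s : Finset ι) (f : ι → K) (hf : ∀ i ∈ s, f i ≠ 0) :
    v.ord (∏ i ∈ s, f i) = ∑ i ∈ s, v.ord (f i) := by
  classical
  induction s using Finset.induction_on with
  | empty => simp [ord_one]
  | insert a s ha ih =>
    rw [Finset.prod_insert ha, Finset.sum_insert ha,
      v.ord_mul _ _ (hf a (Finset.mem_insert_self a s))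
        (Finset.prod_ne_zero_iff.mpr fun i hi => hf i (Finset.mem_insert_of_mem hi)),
      ih fun i hi => hf i (Finset.mem_insert_of_mem hi)]

end ord

section frame

variable {K : Type} [Field K] [Algebra ℂ K] {V : NormalProj K} {r : ℕ} {B : ClassBasis V r}
  {n : ℕ} {L : LogCoord K n} (Fr : Frame B L) (β : Fin r → Fin (n + r))

private theorem divG (hβ : ∀ k, Fr.bl (β k) = k) (q : DivVal K) (hq : q ∈ V.primes) (k : Fin r)
    (h : q ≠ Fr.pr (β k)) : q.ord (Fr.g (β k)) + (B.H k).div q = 0 := by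
  have h1 := Fr.div_other (β k) q hq h
  rw [hβ] at h1
  exact h1

private theorem divG_self (hβ : ∀ k, Fr.bl (β k) = k) (k : Fin r) :
    (Fr.pr (β k)).ord (Fr.g (β k)) + (B.H k).div (Fr.pr (β k)) = 1 := by
  have h1 := Fr.div_self (β k)
  rw [hβ] at h1
  exact h1

private theorem pr_ne (hβ : ∀ k, Fr.bl (β k) = k) {k l : Fin r} (h : k ≠ l) :
    Fr.pr (β l) ≠ Fr.pr (β k) := by
  intro he
  apply h
  rw [← hβ k, ← hβ l, Fr.pr_inj he]

/-- The order of `f ∏ G_k^(m_k)` plus `∑ m_k H_k`. -/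
private theorem ord_tw (q : DivVal K) (f : K) (hf : f ≠ 0) (m : Fin r → ℤ) :
    q.ord (f * ∏ k, Fr.g (β k) ^ m k) = q.ord f + ∑ k, m k * q.ord (Fr.g (β k)) := by
  have hne : ∀ k, Fr.g (β k) ^ m k ≠ 0 := fun k => zpow_ne_zero _ (Fr.ne _)
  rw [q.ord_mul _ _ hf (Finset.prod_ne_zero_iff.mpr fun k _ => hne k),
    ord_prod q _ _ fun k _ => hne k]
  congr 1
  exact Finset.sum_congr rfl fun k _ => ord_zpow q (Fr.ne _) _

private theorem ord_fin (hβ : ∀ k, Fr.bl (β k) = k) (q : DivVal K) (hq : q ∈ V.primes)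
    (hqn : ∀ k, q ≠ Fr.pr (β k)) (m : Fin r → ℤ) :
    ∑ k, m k * q.ord (Fr.g (β k)) + ∑ k, m k * (B.H k).div q = 0 := by
  rw [← Finset.sum_add_distrib]
  refine Finset.sum_eq_zero fun k _ => ?_
  rw [← mul_add, divG Fr β hβ q hq k (hqn k), mul_zero]

private theorem ord_inf (hβ : ∀ k, Fr.bl (β k) = k) (l : Fin r) (m : Fin r → ℤ) :
    ∑ k, m k * (Fr.pr (β l)).ord (Fr.g (β k)) + ∑ k, m k * (B.H k).div (Fr.pr (β l)) = m l := by
  rw [← Finset.sum_add_distrib, Finset.sum_eq_single l]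
  · rw [← mul_add, divG_self Fr β hβ l, mul_one]
  · intro k _ hk
    rw [← mul_add, divG Fr β hβ _ (Fr.pr_mem _) k (pr_ne Fr β hβ hk), mul_zero]
  · intro h
    exact absurd (Finset.mem_univ l) h

/-- The product of the `G_(bl a)^(α a)`. -/
private theorem prod_bl (α : Fin (n + r) → ℕ) (m : Fin r → ℤ)
    (hm : ∀ k, ∑ a, (if Fr.bl a = k then (α a : ℤ) else 0) = m k) :
    ∏ k, Fr.g (β k) ^ m k = ∏ a, Fr.g (β (Fr.bl a)) ^ α a := by
  have h1 : ∀ k, Fr.g (β k) ^ m k = ∏ a, (if Fr.bl a = k then Fr.g (β k) ^ α a else 1) := by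
    intro k
    have h2 : m k = ((∑ a, (if Fr.bl a = k then α a else 0) : ℕ) : ℤ) := by
      rw [← hm k]
      push_cast
      rfl
    rw [h2, zpow_natCast, ← Finset.prod_pow_eq_pow_sum]
    refine Finset.prod_congr rfl fun a _ => ?_
    split_ifs with h
    · rfl
    · exact pow_zero _
  rw [Finset.prod_congr rfl fun k _ => h1 k, Finset.prod_comm]
  refine Finset.prod_congr rfl fun a _ => ?_
  rw [Finset.prod_ite_eq]
  simp

end frame

theorem hOUR (hGAM : StGAM) : StOUR := by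
  intro K _ _ V r B n L Fr β hβ
  refine ⟨fun f hf hord => ?_, fun q hq hqn => ?_⟩
  · -- first claim
    let m : Fin r → ℤ := fun k => max 0 (-(Fr.pr (β k)).ord f)
    have hPne : ∏ k, Fr.g (β k) ^ m k ≠ 0 :=
      Finset.prod_ne_zero_iff.mpr fun k _ => zpow_ne_zero _ (Fr.ne _)
    have hh : f * ∏ k, Fr.g (β k) ^ m k ≠ 0 := mul_ne_zero hf hPne
    have hspan := hGAM K V r B n L Fr m (f * ∏ k, Fr.g (β k) ^ m k) hh (by
      intro q hq
      rw [ord_tw Fr β q f hf m, add_assoc]
      by_cases hc : ∃ l, q = Fr.pr (β l)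
      · obtain ⟨l, rfl⟩ := hc
        rw [ord_inf Fr β hβ l m]
        have := le_max_right 0 (-(Fr.pr (β l)).ord f)
        change 0 ≤ (Fr.pr (β l)).ord f + max 0 (-(Fr.pr (β l)).ord f)
        omega
      · push Not at hc
        rw [ord_fin Fr β hβ q hq hc m, add_zero]
        exact hord q hq hc)
    set A := Algebra.adjoin ℂ (Set.range fun a => Fr.g a / Fr.g (β (Fr.bl a))) with hA
    have key : ∀ x ∈ Submodule.span ℂ {h : K | ∃ α : Fin (n + r) → ℕ,
        (∀ k, ∑ a, (if Fr.bl a = k then (α a : ℤ) else 0) = m k) ∧ h = ∏ a, Fr.g a ^ α a},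
        x * (∏ k, Fr.g (β k) ^ m k)⁻¹ ∈ A := by
      intro x hx
      induction hx using Submodule.span_induction with
      | mem x hx =>
        obtain ⟨α, hα, rfl⟩ := hx
        rw [prod_bl Fr β α m hα, ← div_eq_mul_inv, ← Finset.prod_div_distrib]
        refine Subalgebra.prod_mem A fun a _ => ?_
        rw [← div_pow]
        exact Subalgebra.pow_mem A (Algebra.subset_adjoin ⟨a, rfl⟩) _
      | zero => rw [zero_mul]; exact Subalgebra.zero_mem A
      | add x y _ _ h1 h2 => rw [add_mul]; exact Subalgebra.add_mem A h1 h2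
      | smul c x _ h1 => rw [smul_mul_assoc]; exact Subalgebra.smul_mem A h1 c
    have h3 := key _ hspan
    rw [mul_assoc, mul_inv_cancel₀ hPne, mul_one] at h3
    exact h3
  · -- equations of the prime divisors
    obtain ⟨φ, hφ, h1, h2⟩ := B.sec q hq
    have hne : ∏ k, Fr.g (β k) ^ (-(B.deg q k : ℤ)) ≠ 0 :=
      Finset.prod_ne_zero_iff.mpr fun k _ => zpow_ne_zero _ (Fr.ne _)
    have hneg : ∀ v : DivVal K, ∑ k, -(B.deg q k : ℤ) * (B.H k).div v =
        -∑ k, (B.deg q k : ℤ) * (B.H k).div v := by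
      intro v
      rw [← Finset.sum_neg_distrib]
      exact Finset.sum_congr rfl fun k _ => by ring
    refine ⟨φ * ∏ k, Fr.g (β k) ^ (-(B.deg q k : ℤ)), φ, mul_ne_zero hφ hne, hφ, rfl, ?_, ?_, ?_, ?_⟩
    · intro q' hq'
      by_cases he : q' = q
      · subst he
        rw [h1]
        exact zero_le_one
      · rw [h2 q' hq' he]
    · rw [ord_tw Fr β q φ hφ]
      have h3 := ord_fin Fr β hβ q hq hqn (fun k => -(B.deg q k : ℤ))
      rw [hneg] at h3
      linarith
    · intro q' hq' hqn' he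
      rw [ord_tw Fr β q' φ hφ]
      have h3 := ord_fin Fr β hβ q' hq' hqn' (fun k => -(B.deg q k : ℤ))
      rw [hneg] at h3
      have h4 := h2 q' hq' he
      linarith
    · intro l
      rw [ord_tw Fr β _ φ hφ]
      have h3 := ord_inf Fr β hβ l (fun k => -(B.deg q k : ℤ))
      rw [hneg] at h3
      have h4 := h2 (Fr.pr (β l)) (Fr.pr_mem _) (Ne.symm (hqn l))
      linarith

end Pool.Agent.Helper21.GX
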